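import Pool.Agent.Y113.MT.PStm

/-!
Project MT (helper113), part 4, job RB: a Lie algebra of matrices which projects onto all pairs of
factors `sp(A i) × sp(A j)` and `sp(A i) × 0` contains the product (Goursat, Kolchin, Ribet).
-/

set_option autoImplicit false

open Matrix

namespace Pool.Agent.Y921.MT

/-- the rank one elements -/
theorem br_rank {n : ℕ} (J : Matrix (Fin n) (Fin n) ℚ) (hJ : Jᵀ = -J) (v w : Fin n → ℚ) :
    (vecMulVec v v * J) * (vecMulVec w w * J) - (vecMulVec w w * J) * (vecMulVec v v * J) =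
      (v ⬝ᵥ (J *ᵥ w)) • ((vecMulVec v w + vecMulVec w v) * J) := by
  have h1 : ∀ a b : Fin n → ℚ, (vecMulVec a a * J) * (vecMulVec b b * J) =
      (a ⬝ᵥ (J *ᵥ b)) • (vecMulVec a b * J) := by
    intro a b
    rw [← Matrix.mul_assoc, Matrix.mul_assoc (vecMulVec a a), mul_vecMulVec,
      vecMulVec_mul_vecMulVec, vecMulVec_smul, smul_mul_assoc]
  have h2 : w ⬝ᵥ (J *ᵥ v) = -(v ⬝ᵥ (J *ᵥ w)) := by
    rw [dotProduct_mulVec, ← mulVec_transpose, hJ, neg_mulVec, neg_dotProduct, dotProduct_comm]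
  rw [h1, h1, h2, Matrix.add_mul, smul_add, neg_smul, sub_neg_eq_add]

/-- `sp(A)` is perfect -/
theorem perfect {n : ℕ} (A : Matrix (Fin n) (Fin n) ℚ) (hA : Aᵀ = -A) (hd : A.det ≠ 0)
    (V : Submodule ℚ (Matrix (Fin n) (Fin n) ℚ))
    (hV : ∀ X Y, X * A + A * Xᵀ = 0 → Y * A + A * Yᵀ = 0 → X * Y - Y * X ∈ V)
    (X : Matrix (Fin n) (Fin n) ℚ) (hX : X * A + A * Xᵀ = 0) : X ∈ V := by
  set J := A⁻¹ with hJdef
  have hu : IsUnit A.det := isUnit_iff_ne_zero.2 hd
  have hAJ : A * J = 1 := A.mul_nonsing_inv hu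
  have hJA : J * A = 1 := A.nonsing_inv_mul hu
  have hJ : Jᵀ = -J := by
    rw [hJdef, transpose_nonsing_inv, hA]
    apply inv_eq_right_inv
    rw [neg_mul_neg, hAJ]
  -- symmetric matrices give elements of `sp(A)`
  have hsp : ∀ S : Matrix (Fin n) (Fin n) ℚ, Sᵀ = S → (S * J) * A + A * (S * J)ᵀ = 0 := by
    intro S hS
    rw [transpose_mul, hJ, hS, Matrix.mul_assoc, hJA, Matrix.mul_one, Matrix.neg_mul,
      Matrix.mul_neg, ← Matrix.mul_assoc, hAJ, Matrix.one_mul, add_neg_cancel]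
  have hsv : ∀ v : Fin n → ℚ, (vecMulVec v v)ᵀ = vecMulVec v v := fun v => transpose_vecMulVec v v
  have hbr : ∀ v w : Fin n → ℚ, v ⬝ᵥ (J *ᵥ w) ≠ 0 → (vecMulVec v w + vecMulVec w v) * J ∈ V := by
    intro v w hvw
    have h1 := hV _ _ (hsp _ (hsv v)) (hsp _ (hsv w))
    rw [br_rank J hJ] at h1
    have h2 := V.smul_mem (v ⬝ᵥ (J *ᵥ w))⁻¹ h1
    rwa [smul_smul, inv_mul_cancel₀ hvw, one_smul] at h2
  have hself : ∀ v : Fin n → ℚ, v ⬝ᵥ (J *ᵥ v) = 0 := by
    intro v
    have h2 : v ⬝ᵥ (J *ᵥ v) = -(v ⬝ᵥ (J *ᵥ v)) := by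
      conv_lhs => rw [dotProduct_mulVec, ← mulVec_transpose, hJ, neg_mulVec, neg_dotProduct,
        dotProduct_comm]
    linarith
  have hvv : ∀ v : Fin n → ℚ, vecMulVec v v * J ∈ V := by
    intro v
    by_cases hv : v = 0
    · subst hv
      rw [zero_vecMulVec, Matrix.zero_mul]
      exact V.zero_mem
    obtain ⟨u, hu⟩ : ∃ u : Fin n → ℚ, v ⬝ᵥ (J *ᵥ u) ≠ 0 := by
      by_contra hcon
      push Not at hcon
      apply hv
      have h1 : v ᵥ* J = 0 := by
        ext i
        have := hcon (Pi.single i 1)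
        rw [dotProduct_mulVec, dotProduct_single, mul_one] at this
        exact this
      have h2 : v ᵥ* (J * A) = 0 := by
        rw [← vecMul_vecMul, h1, zero_vecMul]
      rwa [hJA, vecMul_one] at h2
    have h3 : v ⬝ᵥ (J *ᵥ (u + v)) ≠ 0 := by
      rw [mulVec_add, dotProduct_add, hself, add_zero]
      exact hu
    have h4 := V.sub_mem (hbr v (u + v) h3) (hbr v u hu)
    have h5 : (vecMulVec v (u + v) + vecMulVec (u + v) v) * J -
        (vecMulVec v u + vecMulVec u v) * J = (2 : ℚ) • (vecMulVec v v * J) := by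
      rw [← Matrix.sub_mul, vecMulVec_add, add_vecMulVec]
      have h6 : vecMulVec v u + vecMulVec v v + (vecMulVec u v + vecMulVec v v) -
          (vecMulVec v u + vecMulVec u v) = (2 : ℚ) • vecMulVec v v := by
        rw [two_smul]
        abel
      rw [h6, smul_mul_assoc]
    rw [h5] at h4
    have h7 := V.smul_mem (2 : ℚ)⁻¹ h4
    rwa [smul_smul, inv_mul_cancel₀ (by norm_num), one_smul] at h7
  -- symmetric matrices
  set S := X * A with hS
  have hSs : Sᵀ = S := by
    rw [hS, transpose_mul, hA, Matrix.neg_mul]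
    exact (eq_neg_of_add_eq_zero_left hX).symm
  have hXS : X = S * J := by rw [hS, Matrix.mul_assoc, hAJ, Matrix.mul_one]
  have hent : ∀ i j a b : Fin n, (vecMulVec (Pi.single i (1 : ℚ)) (Pi.single j (1 : ℚ)) :
      Matrix (Fin n) (Fin n) ℚ) a b = (if a = i then (1 : ℚ) else 0) * (if b = j then 1 else 0) := by
    intro i j a b
    rw [vecMulVec_apply, Pi.single_apply, Pi.single_apply]
  have hdec0 : S = ∑ i, ∑ j, (S i j / 2) • (vecMulVec (Pi.single i (1 : ℚ)) (Pi.single j (1 : ℚ)) +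
      vecMulVec (Pi.single j (1 : ℚ)) (Pi.single i (1 : ℚ))) := by
    ext a b
    rw [Matrix.sum_apply]
    have h4 : ∀ i, (∑ j, (S i j / 2) • (vecMulVec (Pi.single i (1 : ℚ)) (Pi.single j (1 : ℚ)) +
        vecMulVec (Pi.single j (1 : ℚ)) (Pi.single i (1 : ℚ)) : Matrix (Fin n) (Fin n) ℚ)) a b =
        (if a = i then S i b / 2 else 0) + (if b = i then S i a / 2 else 0) := by
      intro i
      rw [Matrix.sum_apply]
      have h5 : ∀ j, ((S i j / 2) • (vecMulVec (Pi.single i (1 : ℚ)) (Pi.single j (1 : ℚ)) +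
          vecMulVec (Pi.single j (1 : ℚ)) (Pi.single i (1 : ℚ)) : Matrix (Fin n) (Fin n) ℚ)) a b =
          (if b = j then (if a = i then S i j / 2 else 0) else 0) +
          (if a = j then (if b = i then S i j / 2 else 0) else 0) := by
        intro j
        rw [Matrix.smul_apply, Matrix.add_apply, hent, hent, smul_eq_mul]
        split_ifs <;> ring
      rw [Finset.sum_congr rfl fun j _ => h5 j, Finset.sum_add_distrib, Finset.sum_ite_eq,
        Finset.sum_ite_eq]
      simp only [Finset.mem_univ, if_true]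
    rw [Finset.sum_congr rfl fun i _ => h4 i, Finset.sum_add_distrib, Finset.sum_ite_eq,
      Finset.sum_ite_eq]
    simp only [Finset.mem_univ, if_true]
    have h3 : S b a = S a b := by
      have := congrFun (congrFun hSs a) b
      rwa [transpose_apply] at this
    rw [h3]
    ring
  obtain ⟨e, he⟩ : ∃ e : Fin n → Fin n → ℚ, e = fun i => Pi.single i 1 := ⟨_, rfl⟩
  have hdec : S = ∑ i, ∑ j, (S i j / 2) • (vecMulVec (e i + e j) (e i + e j) -
      vecMulVec (e i) (e i) - vecMulVec (e j) (e j)) := by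
    have h1 : ∀ i j, vecMulVec (e i + e j) (e i + e j) -
        vecMulVec (e i) (e i) - vecMulVec (e j) (e j) =
        vecMulVec (e i) (e j) + vecMulVec (e j) (e i) := by
      intro i j
      rw [vecMulVec_add, add_vecMulVec, add_vecMulVec]
      abel
    conv_lhs => rw [hdec0]
    refine Finset.sum_congr rfl fun i _ => Finset.sum_congr rfl fun j _ => ?_
    rw [h1, he]
  rw [hXS, hdec, Finset.sum_mul]
  refine V.sum_mem fun i _ => ?_
  rw [Finset.sum_mul]
  refine V.sum_mem fun j _ => ?_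
  rw [smul_mul_assoc, Matrix.sub_mul, Matrix.sub_mul]
  exact V.smul_mem _ (V.sub_mem (V.sub_mem (hvv _) (hvv _)) (hvv _))

/-- RB -/
theorem rb : Pool.Agent.Y113.MT.S_RB := by
  intro ι _ _ n N A hA hd m hbr hpair hW X hX
  have hJ : ∀ (i : ι) (s : Finset ι), i ∉ s → ∀ Z, Z * A i + A i * Zᵀ = 0 →
      ∃ Y ∈ m, Y.1 i = Z ∧ Y.2 = 0 ∧ ∀ j ∈ s, Y.1 j = 0 := by
    intro i s
    induction s using Finset.induction_on with
    | empty =>
      intro _ Z hZ
      obtain ⟨Y, hY, h1, h2⟩ := hW i Z hZ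
      exact ⟨Y, hY, h1, h2, fun j hj => absurd hj (Finset.notMem_empty j)⟩
    | insert j' s hj' ih =>
      intro hi Z hZ
      have hij : i ≠ j' := fun h => hi (h ▸ Finset.mem_insert_self _ _)
      have his : i ∉ s := fun h => hi (Finset.mem_insert_of_mem h)
      let V : Submodule ℚ (Matrix (Fin n) (Fin n) ℚ) :=
        { carrier := {Z | ∃ Y ∈ m, Y.1 i = Z ∧ Y.2 = 0 ∧ ∀ j ∈ insert j' s, Y.1 j = 0}
          add_mem' := by
            rintro a b ⟨Y, hY, h1, h2, h3⟩ ⟨Y', hY', h1', h2', h3'⟩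
            refine ⟨Y + Y', m.add_mem hY hY', ?_, ?_, fun j hj => ?_⟩
            · rw [Prod.fst_add, Pi.add_apply, h1, h1']
            · rw [Prod.snd_add, h2, h2', add_zero]
            · rw [Prod.fst_add, Pi.add_apply, h3 j hj, h3' j hj, add_zero]
          zero_mem' := ⟨0, m.zero_mem, rfl, rfl, fun j _ => rfl⟩
          smul_mem' := by
            rintro c a ⟨Y, hY, h1, h2, h3⟩
            refine ⟨c • Y, m.smul_mem c hY, ?_, ?_, fun j hj => ?_⟩
            · rw [Prod.smul_fst, Pi.smul_apply, h1]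
            · rw [Prod.smul_snd, h2, smul_zero]
            · rw [Prod.smul_fst, Pi.smul_apply, h3 j hj, smul_zero] }
      refine perfect (A i) (hA i) (hd i) V ?_ Z hZ
      intro P Q hP hQ
      obtain ⟨Y, hY, h1, h2, h3⟩ := ih his P hP
      obtain ⟨Y', hY', h1', h2'⟩ := hpair i j' hij Q hQ
      refine ⟨_, hbr Y hY Y' hY', ?_, ?_, fun j hj => ?_⟩
      · simp only [h1, h1']
      · simp only [h2, Matrix.zero_mul, Matrix.mul_zero, sub_zero]
      · rcases Finset.mem_insert.1 hj with rfl | hj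
        · simp only [h2', Matrix.zero_mul, Matrix.mul_zero, sub_zero]
        · simp only [h3 j hj, Matrix.zero_mul, Matrix.mul_zero, sub_zero]
  have hsing : ∀ i, ((Pi.single i (X i) : ι → Matrix (Fin n) (Fin n) ℚ),
      (0 : Matrix (Fin N) (Fin N) ℚ)) ∈ m := by
    intro i
    obtain ⟨Y, hY, h1, h2, h3⟩ := hJ i (Finset.univ.erase i) (Finset.notMem_erase i _) (X i) (hX i)
    have h4 : ((Pi.single i (X i) : ι → Matrix (Fin n) (Fin n) ℚ),
        (0 : Matrix (Fin N) (Fin N) ℚ)) = Y := by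
      refine Prod.ext ?_ h2.symm
      funext j
      change (Pi.single i (X i) : ι → Matrix (Fin n) (Fin n) ℚ) j = Y.1 j
      by_cases hj : j = i
      · subst hj
        rw [Pi.single_eq_same, h1]
      · rw [Pi.single_eq_of_ne hj, h3 j (Finset.mem_erase.2 ⟨hj, Finset.mem_univ j⟩)]
    rw [h4]
    exact hY
  have hsum : (X, (0 : Matrix (Fin N) (Fin N) ℚ)) =
      ∑ i, ((Pi.single i (X i) : ι → Matrix (Fin n) (Fin n) ℚ), (0 : Matrix (Fin N) (Fin N) ℚ)) := by
    refine Prod.ext ?_ ?_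
    · rw [Prod.fst_sum]
      exact (Finset.univ_sum_single X).symm
    · rw [Prod.snd_sum]
      simp
  rw [hsum]
  exact m.sum_mem fun i _ => hsing i

end Pool.Agent.Y921.MT
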